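import Pool.Agent.H.MP_81c263_nt.Final

set_option autoImplicit false

open MeasureTheory

namespace Pool.Agent.Results.MP_81c263_nt.ShiftedHammersley

/-- The periodic interval `I(a, b)`: `[a, b)` if `a ≤ b`, and `[0, b) ∪ [a, 1)` if `a > b`. -/
noncomputable def arc (a b : ℝ) : Set ℝ :=
  if a ≤ b then Set.Ico a b else Set.Ico 0 b ∪ Set.Ico a 1

/-- The periodic box `B(x, y)`, the product of the intervals `I(x_j, y_j)`. -/
def box {d : ℕ} (x y : Fin d → ℝ) : Set (Fin d → ℝ) := {z | ∀ j, z j ∈ arc (x j) (y j)}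

open scoped Classical in
/-- The local discrepancy `#(P ∩ B(x, y)) - #P λ(B(x, y))`, `λ` the Lebesgue measure. -/
noncomputable def localDisc {d : ℕ} (P : Finset (Fin d → ℝ)) (x y : Fin d → ℝ) : ℝ :=
  ((P.filter fun z => z ∈ box x y).card : ℝ) - (P.card : ℝ) * (volume (box x y)).toReal

/-- The periodic `L_p` discrepancy, as a Lebesgue integral with values in `[0, ∞]` over all
`x, y ∈ [0, 1]^d`. -/
noncomputable def periodicLp {d : ℕ} (p : ℝ) (P : Finset (Fin d → ℝ)) : ENNReal :=
  (∫⁻ x in Set.Icc (0 : Fin d → ℝ) 1, ∫⁻ y in Set.Icc (0 : Fin d → ℝ) 1,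
    ENNReal.ofReal (|localDisc P x y| ^ p)) ^ (1 / p)

/-- The radical inverse of `r` in base `b`, first `h` digits: `∑_{k < h} r_k b^{-k-1}`, where
`r = ∑ r_k b^k`. -/
noncomputable def radInv (b h r : ℕ) : ℝ :=
  ∑ k ∈ Finset.range h, ((r / b ^ k % b : ℕ) : ℝ) / (b : ℝ) ^ (k + 1)

/-- The points `(n / N, φ_2 (n + t_1), φ_3 (n + t_2), φ_5 (n + t_3), …)` of `[0, 1)^d`, where `φ_b`
is the radical inverse with `h` digits and the bases are the first `d - 1` primes. -/
noncomputable def point (d N h : ℕ) (t : Fin d → ℕ) (n : ℕ) : Fin d → ℝ := fun i =>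
  if i.val = 0 then (n : ℝ) / N else radInv (Nat.nth Nat.Prime (i.val - 1)) h (n + t i)

open scoped Classical in
/-- The shifted Hammersley point set: the points with `0 ≤ n < N`, with `h = ⌊log₂ N⌋ + 1`
digits. -/
noncomputable def hammersley (d N : ℕ) (t : Fin d → ℕ) : Finset (Fin d → ℝ) :=
  (Finset.range N).image (point d N (Nat.log 2 N + 1) t)

open Pool.Agent.H.MP_81c263_nt

theorem mem_arc (a b z : ℝ) (hz : z ∈ Set.Ico (0 : ℝ) 1) : z ∈ arc a b ↔ inI a b z := by
  unfold arc inI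
  split_ifs with h
  · constructor
    · intro hz'
      exact Or.inl ⟨h, hz'.1, hz'.2⟩
    · rintro (h' | h')
      · exact ⟨h'.2.1, h'.2.2⟩
      · exact absurd h'.1 (not_lt.2 h)
  · push Not at h
    constructor
    · rintro (hz' | hz')
      · exact Or.inr ⟨h, Or.inl hz'.2⟩
      · exact Or.inr ⟨h, Or.inr hz'.1⟩
    · rintro (h' | h')
      · exact absurd h'.1 (not_le.2 h)
      · rcases h'.2 with h'' | h''
        · exact Or.inl ⟨hz.1, h''⟩
        · exact Or.inr ⟨h'', hz.2⟩

theorem volume_arc {a b : ℝ} (ha : a ∈ Set.Ico (0 : ℝ) 1) (hb : b ∈ Set.Ico (0 : ℝ) 1) :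
    volume (arc a b) = ENNReal.ofReal (len a b) := by
  unfold arc len
  split_ifs with h
  · rw [Real.volume_Ico]
  · push Not at h
    rw [measure_union _ measurableSet_Ico, Real.volume_Ico, Real.volume_Ico,
      ← ENNReal.ofReal_add (by linarith [hb.1]) (by linarith [ha.2])]
    · congr 1
      ring
    · rw [Set.disjoint_left]
      intro z hz hz'
      exact absurd (hz.2.trans h) (not_lt.2 hz'.1)

theorem len_nonneg' {a b : ℝ} (ha : a ∈ Set.Ico (0 : ℝ) 1) (hb : b ∈ Set.Ico (0 : ℝ) 1) :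
    0 ≤ len a b := by
  unfold len
  split_ifs with h
  · linarith
  · linarith [hb.1, ha.2]

theorem volume_box {d : ℕ} {x y : Fin d → ℝ} (hx : ∀ i, x i ∈ Set.Ico (0 : ℝ) 1)
    (hy : ∀ i, y i ∈ Set.Ico (0 : ℝ) 1) :
    (volume (box x y)).toReal = ∏ i, len (x i) (y i) := by
  have h : box x y = Set.pi Set.univ fun j => arc (x j) (y j) := by
    ext z
    simp [box]
  rw [h, volume_pi_pi, ENNReal.toReal_prod]
  refine Finset.prod_congr rfl fun i _ => ?_
  rw [volume_arc (hx i) (hy i), ENNReal.toReal_ofReal (len_nonneg' (hx i) (hy i))]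

theorem radInv_phi {b : ℕ} (hb : 0 < b) (h r : ℕ) :
    (phi b h r : ℝ) / (b ^ h : ℕ) = radInv b h r := by
  have hb' : (b : ℝ) ≠ 0 := by exact_mod_cast hb.ne'
  unfold radInv
  induction h with
  | zero => simp [phi]
  | succ k ih =>
    rw [Finset.sum_range_succ, ← ih, phi]
    push_cast
    field_simp
    ring

theorem radInv_mod {b : ℕ} (h r : ℕ) : radInv b h (r % b ^ h) = radInv b h r := by
  unfold radInv
  refine Finset.sum_congr rfl fun k hk => ?_
  have hk' : k < h := Finset.mem_range.1 hk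
  have h1 : b ^ h = b ^ k * b ^ (h - k) := by rw [← pow_add]; congr 1; omega
  have h2 : r % b ^ h / b ^ k % b = r / b ^ k % b := by
    rw [h1, Nat.mod_mul_right_div_self]
    exact Nat.mod_mod_of_dvd _ (dvd_pow_self b (by omega))
  rw [h2]

theorem point_eq {m : ℕ} (N h : ℕ) (b : Fin m → ℕ) [∀ j, NeZero (b j)]
    (hb : ∀ j, b j = Nat.nth Nat.Prime j) (t : Om b h) (n : ℕ) :
    point (m + 1) N h (Fin.cons 0 fun j => (t j).val) n = pt b h N t n := by
  funext i
  refine Fin.cases ?_ (fun j => ?_) i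
  · simp [point, pt]
  · have hpos : 0 < b j := Nat.pos_of_ne_zero (NeZero.ne (b j))
    have : NeZero (b j ^ h) := ⟨(pow_pos hpos h).ne'⟩
    simp only [point, pt, Fin.cons_succ, Fin.val_succ, Nat.add_sub_cancel, Nat.succ_ne_zero,
      if_false]
    rw [radInv_phi hpos, ZMod.val_add, ZMod.val_natCast, ← hb j, Nat.add_mod_mod,
      radInv_mod, Nat.add_comm]

theorem exists_shift {α T : Type*} [MeasurableSpace α] (μ : Measure α) (S : Set α)
    (hS : MeasurableSet S) (hμ : μ S = 1) [Fintype T] [Nonempty T] (F : T → α → α → ℝ)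
    (hF : ∀ t x y, 0 ≤ F t x y) (K : ℝ)
    (h : ∀ x ∈ S, ∀ y ∈ S, ∑ t, F t x y ≤ Fintype.card T * K) :
    ∃ t, ∫⁻ x in S, ∫⁻ y in S, ENNReal.ofReal (F t x y) ∂μ ∂μ ≤ ENNReal.ofReal K := by
  by_contra hcon
  push Not at hcon
  have h2 : ∑ t : T, ∫⁻ x in S, ∫⁻ y in S, ENNReal.ofReal (F t x y) ∂μ ∂μ ≤
      ENNReal.ofReal (Fintype.card T * K) := by
    calc ∑ t : T, ∫⁻ x in S, ∫⁻ y in S, ENNReal.ofReal (F t x y) ∂μ ∂μ
        ≤ ∫⁻ x in S, ∑ t : T, ∫⁻ y in S, ENNReal.ofReal (F t x y) ∂μ ∂μ :=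
          sum_lintegral_le _ _ _
      _ ≤ ∫⁻ x in S, ∫⁻ y in S, ∑ t : T, ENNReal.ofReal (F t x y) ∂μ ∂μ :=
          lintegral_mono (fun x => sum_lintegral_le _ _ _)
      _ ≤ ∫⁻ x in S, ∫⁻ y in S, ENNReal.ofReal (Fintype.card T * K) ∂μ ∂μ := by
          apply setLIntegral_mono' hS
          intro x hx
          apply setLIntegral_mono' hS
          intro y hy
          rw [← ENNReal.ofReal_sum_of_nonneg (fun t _ => hF t x y)]
          exact ENNReal.ofReal_le_ofReal (h x hx y hy)
      _ = ENNReal.ofReal (Fintype.card T * K) := by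
          simp [hμ]
  have h3 : ∑ t : T, ENNReal.ofReal K <
      ∑ t : T, ∫⁻ x in S, ∫⁻ y in S, ENNReal.ofReal (F t x y) ∂μ ∂μ := by
    apply ENNReal.sum_lt_sum_of_nonempty Finset.univ_nonempty
    intro t _
    exact hcon t
  have h4 : ∑ t : T, ENNReal.ofReal K = ENNReal.ofReal (Fintype.card T * K) := by
    rw [Finset.sum_const, Finset.card_univ, nsmul_eq_mul, ENNReal.ofReal_mul (Nat.cast_nonneg _),
      ENNReal.ofReal_natCast]
  rw [h4] at h3
  exact absurd h2 (not_le.mpr h3)

/-- The integrals over the closed and over the half-open cube agree. -/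
theorem lintegral_cube {d : ℕ} (F : (Fin d → ℝ) → (Fin d → ℝ) → ENNReal) :
    ∫⁻ x in Set.Icc (0 : Fin d → ℝ) 1, ∫⁻ y in Set.Icc (0 : Fin d → ℝ) 1, F x y =
      ∫⁻ x in Set.pi Set.univ (fun _ : Fin d => Set.Ico (0 : ℝ) 1),
        ∫⁻ y in Set.pi Set.univ (fun _ : Fin d => Set.Ico (0 : ℝ) 1), F x y := by
  have h : (Set.pi Set.univ (fun _ : Fin d => Set.Ico (0 : ℝ) 1) : Set (Fin d → ℝ)) =ᵐ[volume]
      Set.Icc (0 : Fin d → ℝ) 1 :=
    Measure.univ_pi_Ico_ae_eq_Icc (μ := fun _ : Fin d => (volume : Measure ℝ))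
      (f := (0 : Fin d → ℝ)) (g := (1 : Fin d → ℝ))
  rw [Measure.restrict_congr_set h]

/-- **The periodic `L_p` discrepancy has the order `(log N)^((d-1)/2)` for every `N` and `p`.** -/
theorem result (d : ℕ) (hd : 2 ≤ d) (p : ℝ) (hp : 1 ≤ p) : ∃ c : ℝ, 0 < c ∧ ∀ N : ℕ,
    ∃ t : Fin d → ℕ, (hammersley d N t).card = N ∧
      (∀ z ∈ hammersley d N t, ∀ i, z i ∈ Set.Ico (0 : ℝ) 1) ∧
      periodicLp p (hammersley d N t) ≤
        ENNReal.ofReal (c * (1 + Real.log (N : ℝ)) ^ (((d : ℝ) - 1) / 2)) := by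
  classical
  obtain ⟨m, rfl⟩ : ∃ m, d = m + 1 := ⟨d - 1, by omega⟩
  have e : (((m + 1 : ℕ) : ℝ) - 1) / 2 = (m : ℝ) / 2 := by
    push_cast
    ring
  rw [e]
  set b : Fin m → ℕ := fun j => Nat.nth Nat.Prime j with hb
  have hprime : ∀ j, (b j).Prime := fun j => Nat.prime_nth_prime j
  have : ∀ j, NeZero (b j) := fun j => ⟨(hprime j).ne_zero⟩
  have hco : ∀ i j, i ≠ j → Nat.Coprime (b i) (b j) := by
    intro i j hij
    rw [Nat.coprime_primes (hprime i) (hprime j)]
    intro heq
    exact hij (Fin.ext (Nat.nth_injective Nat.infinite_setOfPred_prime heq))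
  set k := ⌈p⌉₊ with hk
  have hpk : p ≤ 2 * ((k : ℝ) + 1) := by
    have := Nat.le_ceil p
    rw [← hk] at this
    linarith
  obtain ⟨C, hC, hCN⟩ := KK_growth b k
  refine ⟨C, hC, ?_⟩
  intro N
  have hp0 : 0 < p := by linarith
  rcases Nat.eq_zero_or_pos N with rfl | hN
  · have h0 : hammersley (m + 1) 0 (fun _ => 0) = ∅ := by simp [hammersley]
    refine ⟨fun _ => 0, by rw [h0]; rfl, by rw [h0]; simp, ?_⟩
    have h1 : periodicLp p (hammersley (m + 1) 0 (fun _ => 0)) = 0 := by
      rw [h0]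
      unfold periodicLp localDisc
      simp only [Finset.filter_empty, Finset.card_empty, Nat.cast_zero, zero_mul, sub_zero,
        abs_zero, Real.zero_rpow hp0.ne', ENNReal.ofReal_zero, lintegral_zero]
      exact ENNReal.zero_rpow_of_pos (by positivity)
    rw [h1]
    exact bot_le
  · set h := Nat.log 2 N + 1 with hh
    have hNb : ∀ j, N ≤ b j ^ h := by
      intro j
      calc N ≤ 2 ^ h := (Nat.lt_pow_succ_log_self (by norm_num) N).le
        _ ≤ b j ^ h := Nat.pow_le_pow_left (hprime j).two_le h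
    set S := Set.pi Set.univ (fun _ : Fin (m + 1) => Set.Ico (0 : ℝ) 1) with hS
    have hSmeas : MeasurableSet S := MeasurableSet.univ_pi (fun _ => measurableSet_Ico)
    have hSvol : (volume : Measure (Fin (m + 1) → ℝ)) S = 1 := by
      rw [hS, volume_pi_pi]
      simp
    have hK0 := KK_pos (b := b) (h := h) k
    obtain ⟨t, ht⟩ := exists_shift (volume : Measure (Fin (m + 1) → ℝ)) S hSmeas hSvol
      (T := Om b h) (fun t x y => |Delta b h N t x y| ^ p)
      (fun t x y => Real.rpow_nonneg (abs_nonneg _) _) (2 * (KK b h k + (m + 1)) ^ p)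
      (fun x hx y hy => sum_Delta_pow hco hN hNb k p hp hpk (fun i => hx i (Set.mem_univ i))
        (fun i => hy i (Set.mem_univ i)))
    have hset : hammersley (m + 1) N (Fin.cons 0 fun j => (t j).val) =
        (Finset.range N).image (pt b h N t) := by
      unfold hammersley
      refine Finset.image_congr fun n _ => ?_
      exact point_eq N h b (fun j => rfl) t n
    have hmem : ∀ z ∈ (Finset.range N).image (pt b h N t), ∀ i, z i ∈ Set.Ico (0 : ℝ) 1 := by
      intro z hz i
      obtain ⟨n, hn, rfl⟩ := Finset.mem_image.mp hz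
      exact pt_mem hN t (Finset.mem_range.mp hn) i
    have hcard : ((Finset.range N).image (pt b h N t)).card = N := by
      rw [Finset.card_image_of_injOn (pt_injOn hN t), Finset.card_range]
    refine ⟨Fin.cons 0 fun j => (t j).val, ?_, ?_, ?_⟩
    · rw [hset, hcard]
    · rw [hset]
      exact hmem
    · rw [hset]
      have hdisc : ∀ x ∈ S, ∀ y ∈ S,
          localDisc ((Finset.range N).image (pt b h N t)) x y = Delta b h N t x y := by
        intro x hx y hy
        unfold localDisc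
        rw [hcard, volume_box (fun i => hx i (Set.mem_univ i)) (fun i => hy i (Set.mem_univ i)),
          Delta, ← count_eq N (pt b h N t) (pt_injOn hN t) x y]
        congr 3
        refine Finset.filter_congr fun z hz => ?_
        exact forall_congr' fun i => mem_arc _ _ _ (hmem z hz i)
      unfold periodicLp
      rw [lintegral_cube]
      have h1 : ∫⁻ x in S, ∫⁻ y in S,
          ENNReal.ofReal (|localDisc ((Finset.range N).image (pt b h N t)) x y| ^ p) ≤
          ENNReal.ofReal (2 * (KK b h k + (m + 1)) ^ p) := by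
        refine le_trans ?_ ht
        apply setLIntegral_mono' hSmeas
        intro x hx
        apply setLIntegral_mono' hSmeas
        intro y hy
        rw [hdisc x hx y hy]
      have h2 : (2 * (KK b h k + (m + 1)) ^ p) ^ (1 / p) ≤ 2 * (KK b h k + (m + 1)) := by
        rw [Real.mul_rpow (by norm_num) (by positivity), ← Real.rpow_mul (by positivity),
          mul_one_div_cancel hp0.ne', Real.rpow_one]
        apply mul_le_mul_of_nonneg_right _ (by positivity)
        calc (2 : ℝ) ^ (1 / p) ≤ 2 ^ (1 : ℝ) := by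
              apply Real.rpow_le_rpow_of_exponent_le (by norm_num)
              rw [div_le_one hp0]
              exact hp
          _ = 2 := Real.rpow_one 2
      calc _ ≤ (ENNReal.ofReal (2 * (KK b h k + (m + 1)) ^ p)) ^ (1 / p) :=
            ENNReal.rpow_le_rpow h1 (by positivity)
        _ = ENNReal.ofReal ((2 * (KK b h k + (m + 1)) ^ p) ^ (1 / p)) :=
            ENNReal.ofReal_rpow_of_nonneg (by positivity) (by positivity)
        _ ≤ _ := ENNReal.ofReal_le_ofReal (h2.trans (hCN N hN))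

end Pool.Agent.Results.MP_81c263_nt.ShiftedHammersley
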